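import Pool.Agent.helper6.EV.Spec

/-!
# ev:RB, the bound for `Rx`
-/

set_option autoImplicit false

namespace Pool.Agent.EV

open N1f72dd46 Filter MeasureTheory Complex Metric Pool.Agent.helper6.LD

theorem RB_re (a y : ℝ) : ((a : ℂ) + y * I).re = a := by simp

theorem RB_im (a y : ℝ) : ((a : ℂ) + y * I).im = y := by simp

/-- The elementary estimate of the denominators. -/
theorem RB_den (s : ℂ) (h : 1 / 2 ≤ s.re) : (1 + |s.im|) ^ (2 : ℕ) / 8 ≤ ‖s * (s + 1)‖ := by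
  have h1 : ‖s‖ ≤ ‖s + 1‖ := by
    rw [← abs_of_nonneg (norm_nonneg s), ← abs_of_nonneg (norm_nonneg (s + 1)), ← sq_le_sq,
      ← Complex.normSq_eq_norm_sq, ← Complex.normSq_eq_norm_sq, Complex.normSq_apply,
      Complex.normSq_apply]
    simp
    nlinarith
  have h2 : ‖s‖ ^ 2 ≤ ‖s * (s + 1)‖ := by
    rw [norm_mul, sq]
    exact mul_le_mul_of_nonneg_left h1 (norm_nonneg _)
  refine le_trans ?_ h2
  rw [← Complex.normSq_eq_norm_sq, Complex.normSq_apply]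
  have h3 : |s.im| ^ 2 = s.im ^ 2 := sq_abs _
  nlinarith [sq_nonneg (|s.im| - 1), abs_nonneg s.im]

theorem RB_log (t : ℝ) (ht : 0 ≤ t) : Real.log (3 + t) ≤ 4 * (1 + t) ^ (1 / 2 : ℝ) := by
  have h1 : Real.log (3 + t) ≤ (3 + t) ^ (1 / 2 : ℝ) / (1 / 2) :=
    Real.log_le_rpow_div (by linarith) (by norm_num)
  have h2 : (3 + t) ^ (1 / 2 : ℝ) ≤ (4 * (1 + t)) ^ (1 / 2 : ℝ) :=
    Real.rpow_le_rpow (by linarith) (by linarith) (by norm_num)
  have h3 : (4 * (1 + t)) ^ (1 / 2 : ℝ) = 2 * (1 + t) ^ (1 / 2 : ℝ) := by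
    rw [Real.mul_rpow (by norm_num) (by linarith)]
    congr 1
    rw [show (4 : ℝ) = 2 ^ (2 : ℝ) by norm_num, ← Real.rpow_mul (by norm_num)]
    norm_num
  rw [h3] at h2
  have h4 : (3 + t) ^ (1 / 2 : ℝ) / (1 / 2) = 2 * (3 + t) ^ (1 / 2 : ℝ) := by ring
  rw [h4] at h1
  linarith

theorem RB_Ph {C : ℝ} (hC : 0 < C) (s : ℂ) (h : 1 / 2 ≤ s.re)
    (hl : ‖deriv Zt s / Zt s‖ ≤ C * Real.log (3 + |s.im|)) :
    ‖Ph s‖ ≤ 8 * (4 * C + 1) * (1 + |s.im|) ^ (-(3 / 2) : ℝ) := by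
  unfold Ph
  rw [norm_div, norm_neg]
  have h1 : ‖deriv Zt s / Zt s + 1‖ ≤ (4 * C + 1) * (1 + |s.im|) ^ (1 / 2 : ℝ) := by
    have h2 := norm_add_le (deriv Zt s / Zt s) 1
    have h3 := RB_log |s.im| (abs_nonneg _)
    have h4 : 1 ≤ (1 + |s.im|) ^ (1 / 2 : ℝ) :=
      Real.one_le_rpow (by linarith [abs_nonneg s.im]) (by norm_num)
    rw [norm_one] at h2
    nlinarith [mul_le_mul_of_nonneg_left h3 hC.le]
  have h5 := RB_den s h
  have hp : 0 < 1 + |s.im| := by linarith [abs_nonneg s.im]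
  have h6 : 0 < (1 + |s.im|) ^ (2 : ℕ) / 8 := by positivity
  have h7 : 0 ≤ (4 * C + 1) * (1 + |s.im|) ^ (1 / 2 : ℝ) := by positivity
  calc ‖deriv Zt s / Zt s + 1‖ / ‖s * (s + 1)‖
      ≤ (4 * C + 1) * (1 + |s.im|) ^ (1 / 2 : ℝ) / ((1 + |s.im|) ^ (2 : ℕ) / 8) :=
        div_le_div₀ h7 h1 h6 h5
    _ = 8 * (4 * C + 1) * (1 + |s.im|) ^ (-(3 / 2) : ℝ) := by
        have e : (1 + |s.im|) ^ (-(3 / 2) : ℝ) = (1 + |s.im|) ^ (1 / 2 : ℝ) / (1 + |s.im|) ^ (2 : ℕ) := by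
          rw [← Real.rpow_natCast, ← Real.rpow_sub hp]
          norm_num
        rw [e]
        field_simp

theorem RB (hZT : ZT_stmt) (hLD : LD_stmt) (hIV : IV_stmt) (hVS : VS_stmt) : RB_stmt := by
  intro θ σ1 hθ h1 h2 hz
  obtain ⟨C, hC, hCb⟩ := hLD θ σ1 hθ h1 h2 hz
  have hhalf : 1 / 2 ≤ σ1 := by linarith
  have hint : Integrable (fun y : ℝ => (1 + |y|) ^ (-(3 / 2) : ℝ)) := by
    have := integrable_one_add_norm (E := ℝ) (μ := volume) (r := 3 / 2) (by simp; norm_num)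
    simpa using this
  set K : ℝ := 8 * (4 * C + 1) with hK
  have hKpos : 0 < K := by positivity
  set A : ℝ := ∫ y : ℝ, (1 + |y|) ^ (-(3 / 2) : ℝ) with hA
  have hA0 : 0 ≤ A := integral_nonneg (fun y => by positivity)
  refine ⟨K * (A + 1), by positivity, ?_⟩
  intro x hx
  have hx0 : 0 < x := by linarith
  obtain ⟨-, hR⟩ := hIV x hx
  have hxc : (x : ℂ) ≠ 0 := by exact_mod_cast hx0.ne'
  have hnx : ∀ s : ℂ, ‖(x : ℂ) ^ (s + 1)‖ = x ^ (s.re + 1) := by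
    intro s
    rw [Complex.norm_cpow_eq_rpow_re_of_pos hx0]
    simp
  have key := hVS (fun s => Ph s * (x : ℂ) ^ (s + 1)) σ1 2 (K * x ^ (3 : ℝ)) (by linarith) (by
    intro s hs1 hs2
    obtain ⟨hne, hb⟩ := hCb s hs1 hs2
    have hre : 0 < s.re := by linarith
    have hs0 : s ≠ 0 := by
      intro h
      rw [h] at hre
      simp at hre
    have hs10 : s + 1 ≠ 0 := by
      intro h
      have : (s + 1).re = 0 := by rw [h]; simp
      simp at this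
      linarith
    constructor
    · have hd1 : DifferentiableAt ℂ Zt s := hZT.1 s
      have hd2 : DifferentiableAt ℂ (deriv Zt) s := by
        have := (hZT.1.contDiff (n := 2)).differentiable_deriv_two
        exact this s
      have hd3 : DifferentiableAt ℂ Ph s := by
        unfold Ph
        exact (((hd2.div hd1 hne).add_const 1).neg).div
          (differentiableAt_id.mul (differentiableAt_id.add_const 1)) (mul_ne_zero hs0 hs10)
      refine hd3.mul ?_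
      exact (differentiableAt_id.add_const 1).const_cpow (Or.inl hxc)
    · rw [norm_mul, hnx]
      have hb2 := RB_Ph hC s (by linarith) hb
      have hb3 : x ^ (s.re + 1) ≤ x ^ (3 : ℝ) :=
        Real.rpow_le_rpow_of_exponent_le hx (by linarith)
      calc ‖Ph s‖ * x ^ (s.re + 1) ≤ (K * (1 + |s.im|) ^ (-(3 / 2) : ℝ)) * x ^ (3 : ℝ) :=
            mul_le_mul hb2 hb3 (by positivity) (by positivity)
        _ = K * x ^ (3 : ℝ) * (1 + |s.im|) ^ (-(3 / 2) : ℝ) := by ring)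
  obtain ⟨-, -, hI⟩ := key
  have hI2 : ∫ y : ℝ, Ph (2 + y * I) * (x : ℂ) ^ ((2 + y * I : ℂ) + 1) =
      ∫ y : ℝ, Ph ((σ1 : ℂ) + y * I) * (x : ℂ) ^ (((σ1 : ℂ) + y * I) + 1) := by
    rw [hI]
    simp only [Complex.ofReal_ofNat]
  rw [hI2] at hR
  have hbound : ‖∫ y : ℝ, Ph ((σ1 : ℂ) + y * I) * (x : ℂ) ^ (((σ1 : ℂ) + y * I) + 1)‖ ≤
      ∫ y : ℝ, K * x ^ (1 + σ1) * (1 + |y|) ^ (-(3 / 2) : ℝ) := by
    apply norm_integral_le_of_norm_le (hint.const_mul _)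
    filter_upwards with y
    rw [norm_mul, hnx, RB_re]
    have hb2 := RB_Ph hC ((σ1 : ℂ) + y * I) (by rw [RB_re]; exact hhalf)
      (hCb _ (by rw [RB_re]) (by rw [RB_re]; linarith)).2
    rw [RB_im] at hb2
    calc ‖Ph ((σ1 : ℂ) + y * I)‖ * x ^ (σ1 + 1) ≤
        (K * (1 + |y|) ^ (-(3 / 2) : ℝ)) * x ^ (σ1 + 1) :=
          mul_le_mul_of_nonneg_right hb2 (by positivity)
      _ = K * x ^ (1 + σ1) * (1 + |y|) ^ (-(3 / 2) : ℝ) := by
          rw [add_comm σ1 1]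
          ring
  rw [integral_const_mul, ← hA] at hbound
  have hnR : |Rx x| = ‖(Rx x : ℂ)‖ := by
    rw [Complex.norm_real, Real.norm_eq_abs]
  rw [hnR, hR, norm_mul, Complex.norm_real, Real.norm_eq_abs,
    abs_of_nonneg (by positivity : (0 : ℝ) ≤ 1 / (2 * Real.pi))]
  have hpi : 1 / (2 * Real.pi) ≤ 1 := by
    rw [div_le_one (by positivity)]
    linarith [Real.pi_gt_three]
  have hxp : 0 ≤ x ^ (1 + σ1) := by positivity
  calc 1 / (2 * Real.pi) * ‖∫ y : ℝ, Ph ((σ1 : ℂ) + y * I) * (x : ℂ) ^ (((σ1 : ℂ) + y * I) + 1)‖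
      ≤ 1 * (K * x ^ (1 + σ1) * A) :=
        mul_le_mul hpi hbound (norm_nonneg _) (by norm_num)
    _ ≤ K * (A + 1) * x ^ (1 + σ1) := by
        nlinarith [mul_nonneg hKpos.le hxp]

end Pool.Agent.EV
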